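import Pool.Agent.helper58.CRO.SpecB

set_option autoImplicit false

open scoped Manifold ContDiff Topology ENNReal
open MeasureTheory Set

noncomputable section

namespace Pool.Agent.CRO

theorem AVG : AVG_stmt := by
  intro n Φ hΦ hmp A β U b hA hβ hU hb
  let S : Set (ℝ × PS n) := {q | q.1 ∈ Icc 0 U ∧ Φ q.1 q.2 ∈ β}
  have hS : MeasurableSet S := by
    have h1 : MeasurableSet {q : ℝ × PS n | q.1 ∈ Icc 0 U} := measurable_fst measurableSet_Icc
    have h2 : MeasurableSet {q : ℝ × PS n | Φ q.1 q.2 ∈ β} := hΦ.measurable hβ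
    exact h1.inter h2
  have hTm : Measurable (fun z : PS n => volume {u : ℝ | u ∈ Icc 0 U ∧ Φ u z ∈ β}) :=
    measurable_measure_prodMk_right (μ := (volume : Measure ℝ)) hS
  have hint : ∫⁻ z : PS n, volume {u : ℝ | u ∈ Icc 0 U ∧ Φ u z ∈ β} = ENNReal.ofReal U * volume β := by
    have e1 : ((volume : Measure ℝ).prod (volume : Measure (PS n))) S =
        ∫⁻ z : PS n, volume {u : ℝ | u ∈ Icc 0 U ∧ Φ u z ∈ β} :=
      Measure.prod_apply_symm hS
    have e2 : ((volume : Measure ℝ).prod (volume : Measure (PS n))) S =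
        ∫⁻ u : ℝ, (volume : Measure (PS n)) (Prod.mk u ⁻¹' S) :=
      Measure.prod_apply hS
    rw [← e1, e2]
    have e3 : (fun u : ℝ => (volume : Measure (PS n)) (Prod.mk u ⁻¹' S)) =
        (Icc 0 U).indicator (fun _ => volume β) := by
      funext u
      by_cases hu : u ∈ Icc 0 U
      · rw [indicator_of_mem hu]
        have : Prod.mk u ⁻¹' S = Φ u ⁻¹' β := by
          ext z
          constructor
          · intro h
            exact h.2
          · intro h
            exact ⟨hu, h⟩
        rw [this]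
        exact (hmp u).measure_preimage hβ.nullMeasurableSet
      · rw [indicator_of_notMem hu]
        have : Prod.mk u ⁻¹' S = ∅ := by
          rw [eq_empty_iff_forall_notMem]
          intro z h
          exact hu h.1
        rw [this, measure_empty]
    rw [e3, lintegral_indicator_const measurableSet_Icc, Real.volume_Icc, sub_zero, mul_comm]
  refine ⟨{z | z ∈ A ∧ volume {u : ℝ | u ∈ Icc 0 U ∧ Φ u z ∈ β} ≤ ENNReal.ofReal b}, fun z hz => hz.1,
    hA.inter (hTm measurableSet_Iic), ?_, fun z hz => hz.2⟩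
  rw [← hint]
  refine le_trans (mul_le_mul_right ?_ _) (mul_meas_ge_le_lintegral hTm (ENNReal.ofReal b))
  refine measure_mono ?_
  rintro z ⟨hz1, hz2⟩
  by_contra h
  exact hz2 ⟨hz1, le_of_lt (not_le.1 h)⟩

end Pool.Agent.CRO
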