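import Pool.Agent.helper58.CRO.SpecK

/-!
# Row cro:KFI: the area of the ball
-/

open scoped Manifold ContDiff Topology ENNReal
open MeasureTheory Set Bundle Filter

noncomputable section

namespace Pool.Agent.CRO

theorem KFI_sum (N : ℕ) : ∑ j ∈ Finset.Icc 1 N, 1 / Real.sqrt (j : ℝ) ≤ 2 * Real.sqrt N := by
  induction N with
  | zero => simp
  | succ k ih =>
    rw [Finset.sum_Icc_succ_top (by omega)]
    have h1 : 0 < Real.sqrt ((k + 1 : ℕ) : ℝ) := Real.sqrt_pos.2 (by positivity)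
    have h2 : 0 ≤ Real.sqrt (k : ℝ) := Real.sqrt_nonneg _
    have h3 : Real.sqrt ((k + 1 : ℕ) : ℝ) ^ 2 = k + 1 := by
      rw [Real.sq_sqrt (by positivity)]
      push_cast
      ring
    have h4 : Real.sqrt (k : ℝ) ^ 2 = k := Real.sq_sqrt (by positivity)
    have h5 : Real.sqrt (k : ℝ) ≤ Real.sqrt ((k + 1 : ℕ) : ℝ) := by
      apply Real.sqrt_le_sqrt
      push_cast
      linarith
    have h6 : 1 / Real.sqrt ((k + 1 : ℕ) : ℝ) ≤
        2 * (Real.sqrt ((k + 1 : ℕ) : ℝ) - Real.sqrt (k : ℝ)) := by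
      rw [div_le_iff₀ h1]
      nlinarith
    linarith

theorem KFI_int (h2 : KF1_stmt) (h3 : KF2_stmt) (a ε T : ℝ) (ha : 0 < a) (hε : 0 < ε)
    (hT : ε ≤ T) :
    1 / (2 * a) * (2 - Real.pi * a / T - Real.sqrt (Real.pi * ε / (2 * a))) ≤
      ∫ M in ε..T, fl (min 1 (M / (2 * a))) / M ^ 2 := by
  have hT0 : 0 < T := lt_of_lt_of_le hε hT
  have h2a : 0 < 2 * a := by linarith
  have e1 : ∫ M in ε..T, fl (min 1 (M / (2 * a))) / M ^ 2 =
      1 / (2 * a) ^ 2 * ∫ M in ε..T, fl (min 1 (M / (2 * a))) / (M / (2 * a)) ^ 2 := by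
    rw [← intervalIntegral.integral_const_mul]
    refine intervalIntegral.integral_congr fun M hM => ?_
    rw [uIcc_of_le hT] at hM
    have hM0 : 0 < M := lt_of_lt_of_le hε hM.1
    field_simp
  have e2 : ∫ M in ε..T, fl (min 1 (M / (2 * a))) / (M / (2 * a)) ^ 2 =
      (2 * a) * ∫ x in (ε / (2 * a))..(T / (2 * a)), fl (min 1 x) / x ^ 2 := by
    have := intervalIntegral.integral_comp_div (a := ε) (b := T) (fun x => fl (min 1 x) / x ^ 2)
      h2a.ne'
    rw [this, smul_eq_mul]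
  obtain ⟨i1, l1, -, -⟩ := h3 (T / (2 * a)) (by positivity)
  obtain ⟨i2, -, u1, u2⟩ := h3 (ε / (2 * a)) (by positivity)
  have e3 : ∫ x in (ε / (2 * a))..(T / (2 * a)), fl (min 1 x) / x ^ 2 =
      (∫ x in (0 : ℝ)..(T / (2 * a)), fl (min 1 x) / x ^ 2) -
        ∫ x in (0 : ℝ)..(ε / (2 * a)), fl (min 1 x) / x ^ 2 :=
    (intervalIntegral.integral_interval_sub_left i1 i2).symm
  have l2 : 2 - Real.pi * a / T ≤ ∫ x in (0 : ℝ)..(T / (2 * a)), fl (min 1 x) / x ^ 2 := by
    refine le_trans (le_of_eq ?_) l1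
    field_simp
  have hpi := Real.pi_pos
  have l3 : ∫ x in (0 : ℝ)..(ε / (2 * a)), fl (min 1 x) / x ^ 2 ≤
      Real.sqrt (Real.pi * ε / (2 * a)) := by
    set P : ℝ := ∫ x in (0 : ℝ)..(ε / (2 * a)), fl (min 1 x) / x ^ 2 with hP
    by_cases hP0 : P ≤ 0
    · exact hP0.trans (Real.sqrt_nonneg _)
    · rw [not_le] at hP0
      apply Real.le_sqrt_of_sq_le
      have : P ^ 2 ≤ 2 * (Real.pi / 2 * (ε / (2 * a))) := by nlinarith
      refine this.trans (le_of_eq ?_)
      field_simp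
  rw [e1, e2, e3]
  have e4 : ∀ X : ℝ, 1 / (2 * a) ^ 2 * (2 * a * X) = 1 / (2 * a) * X := by
    intro X
    field_simp
  rw [e4]
  refine mul_le_mul_of_nonneg_left ?_ (by positivity)
  linarith

theorem KFI_cont (h2 : KF1_stmt) (s ε T : ℝ) (hε : 0 < ε) (hT : ε ≤ T) :
    IntervalIntegrable (fun M : ℝ => fl (min 1 (M / s)) / M ^ 2) volume ε T := by
  obtain ⟨-, -, hc, -⟩ := h2
  apply ContinuousOn.intervalIntegrable
  rw [uIcc_of_le hT]
  refine ContinuousOn.div ?_ ?_ ?_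
  · exact (hc.comp (continuous_const.min (continuous_id.div_const s))).continuousOn
  · exact (continuous_pow 2).continuousOn
  · intro M hM
    have : 0 < M := lt_of_lt_of_le hε hM.1
    positivity

theorem KFI_rhs (D ε T : ℝ) (hD : 0 ≤ D) (hε : 0 < ε) (hT : ε ≤ T) :
    IntervalIntegrable (fun M : ℝ => 1 + D / M ^ 2) volume ε T ∧
      ∫ M in ε..T, (1 + D / M ^ 2) ≤ T + D / ε := by
  have hT0 : 0 < T := lt_of_lt_of_le hε hT
  have hc : ContinuousOn (fun M : ℝ => 1 + D / M ^ 2) (uIcc ε T) := by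
    rw [uIcc_of_le hT]
    refine continuousOn_const.add (continuousOn_const.div (continuous_pow 2).continuousOn ?_)
    intro M hM
    have : 0 < M := lt_of_lt_of_le hε hM.1
    positivity
  refine ⟨hc.intervalIntegrable, ?_⟩
  have e : ∫ M in ε..T, (1 + D / M ^ 2) = (T - D / T) - (ε - D / ε) := by
    refine intervalIntegral.integral_eq_sub_of_hasDerivAt (f := fun M => M - D / M) ?_
      hc.intervalIntegrable
    intro M hM
    rw [uIcc_of_le hT] at hM
    have hM0 : M ≠ 0 := (lt_of_lt_of_le hε hM.1).ne'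
    have := (hasDerivAt_id M).sub ((hasDerivAt_inv hM0).const_mul D)
    have e5 : (fun M : ℝ => M - D / M) = (id - fun y => D * y⁻¹) := by
      funext y
      simp [div_eq_mul_inv]
    rw [e5]
    refine this.congr_deriv ?_
    field_simp
    ring
  rw [e]
  have : 0 ≤ D / T := by positivity
  linarith

/-- the inequality for fixed `N`, `ε` -/
theorem KFI_fix (h2 : KF1_stmt) (h3 : KF2_stmt) (R C c V : ℝ) (N : ℕ) (v : ℕ → ℝ) (hR : 0 < R)
    (hN : 3 ≤ N) (hc : 0 < c) (hC : 0 < C)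
    (hv : ∀ j ∈ Finset.Icc 1 N, c * (j * (R / N)) * (R / N) ≤ v j)
    (hV : ∑ j ∈ Finset.Icc 1 N, v j = V)
    (hL : ∀ M : ℝ, 0 < M → M ≤ 8 * (R - 2 * (R / N)) →
      16 * ∑ j ∈ Finset.Icc 1 N, v j * fl (min 1 (R / N * M / (2 * v j))) ≤
        M ^ 2 + 8 * Real.pi * (C * (R / N)))
    (ε : ℝ) (hε : 0 < ε) (hεR : ε ≤ R) :
    16 * R - Real.pi * V / (R - 2 * (R / N)) - 16 * Real.sqrt (Real.pi * ε / (2 * c)) * Real.sqrt R
      ≤ 8 * (R - 2 * (R / N)) + 8 * Real.pi * (C * (R / N)) / ε := by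
  have hpi := Real.pi_pos
  have hN' : (3 : ℝ) ≤ N := by exact_mod_cast hN
  have hN0 : (0 : ℝ) < N := by linarith
  set h : ℝ := R / N with hh
  have hh0 : 0 < h := by positivity
  have hNh : N * h = R := by
    rw [hh]
    field_simp
  have h3h : 3 * h ≤ R := by
    rw [← hNh]
    exact mul_le_mul_of_nonneg_right hN' hh0.le
  set T : ℝ := 8 * (R - 2 * h) with hT
  have hT1 : 8 / 3 * R ≤ T := by rw [hT]; linarith
  have hεT : ε ≤ T := by linarith
  have hT0 : 0 < T := by linarith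
  have hv0 : ∀ j ∈ Finset.Icc 1 N, 0 < v j := by
    intro j hj
    have hj1 : (1 : ℝ) ≤ j := by exact_mod_cast (Finset.mem_Icc.1 hj).1
    refine lt_of_lt_of_le ?_ (hv j hj)
    positivity
  -- integrate
  have hint : ∀ j ∈ Finset.Icc 1 N, IntervalIntegrable
      (fun M : ℝ => 16 * v j * (fl (min 1 (M / (2 * (v j / h)))) / M ^ 2)) volume ε T := by
    intro j _
    exact (KFI_cont h2 _ ε T hε hεT).const_mul _
  have hD : 0 ≤ 8 * Real.pi * (C * h) := by positivity
  obtain ⟨hi, hr⟩ := KFI_rhs (8 * Real.pi * (C * h)) ε T hD hε hεT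
  have hmono : ∫ M in ε..T, ∑ j ∈ Finset.Icc 1 N,
      16 * v j * (fl (min 1 (M / (2 * (v j / h)))) / M ^ 2) ≤
      ∫ M in ε..T, (1 + 8 * Real.pi * (C * h) / M ^ 2) := by
    refine intervalIntegral.integral_mono_on hεT ?_ hi ?_
    · have := IntervalIntegrable.sum (Finset.Icc 1 N) hint
      have e : (fun M : ℝ => ∑ j ∈ Finset.Icc 1 N,
          16 * v j * (fl (min 1 (M / (2 * (v j / h)))) / M ^ 2)) =
          ∑ j ∈ Finset.Icc 1 N, fun M : ℝ =>
            16 * v j * (fl (min 1 (M / (2 * (v j / h)))) / M ^ 2) := by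
        funext M
        rw [Finset.sum_apply]
      rw [e]
      exact this
    · intro M hM
      have hM0 : 0 < M := lt_of_lt_of_le hε hM.1
      have h4 := hL M hM0 hM.2
      have e : ∑ j ∈ Finset.Icc 1 N, 16 * v j * (fl (min 1 (M / (2 * (v j / h)))) / M ^ 2) =
          (16 * ∑ j ∈ Finset.Icc 1 N, v j * fl (min 1 (h * M / (2 * v j)))) / M ^ 2 := by
        rw [Finset.mul_sum, Finset.sum_div]
        refine Finset.sum_congr rfl fun j hj => ?_
        have e2 : M / (2 * (v j / h)) = h * M / (2 * v j) := by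
          have := (hv0 j hj).ne'
          field_simp
        rw [e2]
        ring
      rw [e, div_le_iff₀ (by positivity)]
      refine h4.trans (le_of_eq ?_)
      field_simp
  rw [intervalIntegral.integral_finset_sum hint] at hmono
  have hlow : ∀ j ∈ Finset.Icc 1 N, 8 * h * (2 - Real.pi * (v j / h) / T -
      Real.sqrt (Real.pi * ε / (2 * c)) * (1 / Real.sqrt (j * h))) ≤
      ∫ M in ε..T, 16 * v j * (fl (min 1 (M / (2 * (v j / h)))) / M ^ 2) := by
    intro j hj
    have hj1 : (1 : ℝ) ≤ j := by exact_mod_cast (Finset.mem_Icc.1 hj).1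
    have hj0 : (0 : ℝ) < j := by linarith
    have hvj := hv0 j hj
    have ha : 0 < v j / h := by positivity
    rw [intervalIntegral.integral_const_mul]
    have h5 := mul_le_mul_of_nonneg_left (KFI_int h2 h3 (v j / h) ε T ha hε hεT)
      (show 0 ≤ 16 * v j by positivity)
    refine le_trans ?_ h5
    have e : 16 * v j * (1 / (2 * (v j / h)) * (2 - Real.pi * (v j / h) / T -
        Real.sqrt (Real.pi * ε / (2 * (v j / h))))) = 8 * h * (2 - Real.pi * (v j / h) / T -
        Real.sqrt (Real.pi * ε / (2 * (v j / h)))) := by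
      have : 16 * v j * (1 / (2 * (v j / h))) = 8 * h := by
        field_simp
        norm_num
      rw [← mul_assoc, this]
    rw [e]
    refine mul_le_mul_of_nonneg_left ?_ (by positivity)
    have h6 : Real.sqrt (Real.pi * ε / (2 * (v j / h))) ≤
        Real.sqrt (Real.pi * ε / (2 * c)) * (1 / Real.sqrt (j * h)) := by
      have e7 : Real.sqrt (Real.pi * ε / (2 * c)) * (1 / Real.sqrt (j * h)) =
          Real.sqrt (Real.pi * ε / (2 * c) * (1 / (j * h))) := by
        rw [Real.sqrt_mul (show 0 ≤ Real.pi * ε / (2 * c) by positivity) (1 / ((j : ℝ) * h)),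
          Real.sqrt_div zero_le_one, Real.sqrt_one]
      rw [e7]
      apply Real.sqrt_le_sqrt
      have h8 : c * (j * h) ≤ v j / h := by
        rw [le_div_iff₀ hh0]
        exact hv j hj
      have e9 : Real.pi * ε / (2 * c) * (1 / (j * h)) = Real.pi * ε / (2 * (c * (j * h))) := by
        field_simp
      rw [e9]
      apply div_le_div_of_nonneg_left (by positivity) (by positivity)
      linarith
    linarith
  have hsum := (Finset.sum_le_sum hlow).trans (hmono.trans hr)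
  have e10 : ∑ j ∈ Finset.Icc 1 N, 8 * h * (2 - Real.pi * (v j / h) / T -
      Real.sqrt (Real.pi * ε / (2 * c)) * (1 / Real.sqrt (j * h))) =
      16 * R - 8 * Real.pi * V / T - 8 * Real.sqrt (Real.pi * ε / (2 * c)) *
        (Real.sqrt h * ∑ j ∈ Finset.Icc 1 N, 1 / Real.sqrt (j : ℝ)) := by
    have e11 : ∀ j ∈ Finset.Icc 1 N, 8 * h * (2 - Real.pi * (v j / h) / T -
      Real.sqrt (Real.pi * ε / (2 * c)) * (1 / Real.sqrt (j * h))) = 16 * h -
        8 * Real.pi / T * v j - 8 * Real.sqrt (Real.pi * ε / (2 * c)) * Real.sqrt h *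
          (1 / Real.sqrt (j : ℝ)) := by
      intro j hj
      have hj1 : (1 : ℝ) ≤ j := by exact_mod_cast (Finset.mem_Icc.1 hj).1
      have hj0 : (0 : ℝ) < j := by linarith
      have s1 : 0 < Real.sqrt (j : ℝ) := Real.sqrt_pos.2 hj0
      have s2 : 0 < Real.sqrt h := Real.sqrt_pos.2 hh0
      have s3 : Real.sqrt h * Real.sqrt h = h := Real.mul_self_sqrt hh0.le
      rw [Real.sqrt_mul hj0.le]
      have e12 : h * (1 / (Real.sqrt (j : ℝ) * Real.sqrt h)) =
          Real.sqrt h * (1 / Real.sqrt (j : ℝ)) := by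
        have g : ∀ x y : ℝ, 0 < x → 0 < y → x * x * (1 / (y * x)) = x * (1 / y) := by
          intro x y hx hy
          field_simp
        have g2 := g _ _ s2 s1
        rwa [s3] at g2
      have e13 : 8 * h * (2 - Real.pi * (v j / h) / T - Real.sqrt (Real.pi * ε / (2 * c)) *
          (1 / (Real.sqrt (j : ℝ) * Real.sqrt h))) = 16 * h - 8 * Real.pi / T * (v j / h * h) -
          8 * Real.sqrt (Real.pi * ε / (2 * c)) *
            (h * (1 / (Real.sqrt (j : ℝ) * Real.sqrt h))) := by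
        ring
      rw [e13, e12, div_mul_cancel₀ _ hh0.ne']
      ring
    have g1 : ∑ j ∈ Finset.Icc 1 N, 8 * Real.pi / T * v j = 8 * Real.pi / T * V := by
      rw [← hV, Finset.mul_sum]
    have g2 : ∑ j ∈ Finset.Icc 1 N, 8 * Real.sqrt (Real.pi * ε / (2 * c)) * Real.sqrt h *
        (1 / Real.sqrt (j : ℝ)) = 8 * Real.sqrt (Real.pi * ε / (2 * c)) * Real.sqrt h *
          ∑ j ∈ Finset.Icc 1 N, 1 / Real.sqrt (j : ℝ) := by
      rw [Finset.mul_sum]
    rw [Finset.sum_congr rfl e11, Finset.sum_sub_distrib, Finset.sum_sub_distrib, g1, g2,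
      Finset.sum_const, Nat.card_Icc, nsmul_eq_mul, Nat.add_sub_cancel, ← hNh]
    ring
  rw [e10] at hsum
  have hS := KFI_sum N
  have s4 : Real.sqrt h * ∑ j ∈ Finset.Icc 1 N, 1 / Real.sqrt (j : ℝ) ≤ 2 * Real.sqrt R := by
    calc Real.sqrt h * ∑ j ∈ Finset.Icc 1 N, 1 / Real.sqrt (j : ℝ)
        ≤ Real.sqrt h * (2 * Real.sqrt N) := mul_le_mul_of_nonneg_left hS (Real.sqrt_nonneg _)
      _ = 2 * Real.sqrt R := by
          rw [← hNh, Real.sqrt_mul hN0.le]
          ring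
  have s5 : 8 * Real.sqrt (Real.pi * ε / (2 * c)) *
      (Real.sqrt h * ∑ j ∈ Finset.Icc 1 N, 1 / Real.sqrt (j : ℝ)) ≤
      8 * Real.sqrt (Real.pi * ε / (2 * c)) * (2 * Real.sqrt R) :=
    mul_le_mul_of_nonneg_left s4 (by positivity)
  have e14 : 8 * Real.pi * V / T = Real.pi * V / (R - 2 * h) := by
    have : R - 2 * h ≠ 0 := by
      have : 0 < R - 2 * h := by linarith
      exact this.ne'
    rw [hT]
    field_simp
  rw [e14] at hsum
  linarith

theorem KFI (h1 : KLV_stmt) (h2 : KF1_stmt) (h3 : KF2_stmt) (h4 : JVL_stmt) : KFI_stmt := by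
  intro r0 𝒢 L R hE hLn hR hRr hRL
  have hpi := Real.pi_pos
  obtain ⟨⟨c, C, hc, hC, hb⟩, hV⟩ := h4 2 r0 𝒢 R le_rfl hR hRr
  have hfix : ∀ ε : ℝ, 0 < ε → ε ≤ R → ∀ k : ℕ,
      16 * R - Real.pi * VV 𝒢 R / (R - 2 * (R / ((k + 3 : ℕ) : ℝ))) -
        16 * Real.sqrt (Real.pi * ε / (2 * c)) * Real.sqrt R
      ≤ 8 * (R - 2 * (R / ((k + 3 : ℕ) : ℝ))) +
        8 * Real.pi * (C * (R / ((k + 3 : ℕ) : ℝ))) / ε := by
    intro ε hε hεR k
    refine KFI_fix h2 h3 R C c (VV 𝒢 R) (k + 3) (fun j => vv 𝒢 R (k + 3) j) hR (by omega) hc hC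
      ?_ (hV (k + 3) (by omega)) ?_ ε hε hεR
    · intro j hj
      have := (hb (k + 3) j (by omega) hj).1
      rwa [show (2 - 1 : ℕ) = 1 from rfl, pow_one] at this
    · intro M hM hM2
      exact h1 r0 𝒢 L R hE hLn hR hRr hRL (k + 3) M _ (by omega) hM hM2
        (fun j hj => (hb (k + 3) j (by omega) hj).2)
  have hlim : ∀ ε : ℝ, 0 < ε → ε ≤ R →
      16 * R - Real.pi * VV 𝒢 R / R - 16 * Real.sqrt (Real.pi * ε / (2 * c)) * Real.sqrt R
        ≤ 8 * R := by
    intro ε hε hεR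
    have t0 : Tendsto (fun k : ℕ => R / ((k + 3 : ℕ) : ℝ)) atTop (𝓝 0) :=
      (tendsto_const_div_atTop_nhds_zero_nat R).comp (tendsto_add_atTop_nat 3)
    have t1 : Tendsto (fun k : ℕ => R - 2 * (R / ((k + 3 : ℕ) : ℝ))) atTop (𝓝 R) := by
      have := (tendsto_const_nhds (x := R)).sub (t0.const_mul 2)
      simpa using this
    have t2 : Tendsto (fun k : ℕ => 16 * R - Real.pi * VV 𝒢 R / (R - 2 * (R / ((k + 3 : ℕ) : ℝ))) -
        16 * Real.sqrt (Real.pi * ε / (2 * c)) * Real.sqrt R) atTop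
        (𝓝 (16 * R - Real.pi * VV 𝒢 R / R -
          16 * Real.sqrt (Real.pi * ε / (2 * c)) * Real.sqrt R)) :=
      (tendsto_const_nhds.sub (tendsto_const_nhds.div t1 hR.ne')).sub tendsto_const_nhds
    have t3 : Tendsto (fun k : ℕ => 8 * (R - 2 * (R / ((k + 3 : ℕ) : ℝ))) +
        8 * Real.pi * (C * (R / ((k + 3 : ℕ) : ℝ))) / ε) atTop (𝓝 (8 * R)) := by
      have := (t1.const_mul 8).add (((t0.const_mul C).const_mul (8 * Real.pi)).div_const ε)
      simpa using this
    exact le_of_tendsto_of_tendsto' t2 t3 (hfix ε hε hεR)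
  have hfin : 16 * R - Real.pi * VV 𝒢 R / R ≤ 8 * R := by
    have t0 : Tendsto (fun k : ℕ => R / ((k : ℝ) + 1)) atTop (𝓝 0) := by
      have := tendsto_const_div_atTop_nhds_zero_nat R
      have h5 := this.comp (tendsto_add_atTop_nat 1)
      refine h5.congr fun k => ?_
      simp
    have t1 : Tendsto (fun k : ℕ => 16 * R - Real.pi * VV 𝒢 R / R -
        16 * Real.sqrt (Real.pi * (R / ((k : ℝ) + 1)) / (2 * c)) * Real.sqrt R) atTop
        (𝓝 (16 * R - Real.pi * VV 𝒢 R / R -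
          16 * Real.sqrt (Real.pi * 0 / (2 * c)) * Real.sqrt R)) := by
      refine tendsto_const_nhds.sub (Tendsto.mul_const _ (Tendsto.const_mul _ ?_))
      exact (Real.continuous_sqrt.tendsto _).comp ((t0.const_mul Real.pi).div_const _)
    rw [mul_zero, zero_div, Real.sqrt_zero, mul_zero, zero_mul, sub_zero] at t1
    refine le_of_tendsto' t1 fun k => ?_
    refine hlim _ (by positivity) ?_
    rw [div_le_iff₀ (by positivity)]
    nlinarith
  have h5 : 8 * R ≤ Real.pi * VV 𝒢 R / R := by linarith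
  rw [le_div_iff₀ hR] at h5
  have h6 : 8 / Real.pi * R ^ 2 = (8 * R * R) / Real.pi := by ring
  rw [h6, div_le_iff₀ hpi]
  linarith

end Pool.Agent.CRO
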